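import Pool.Agent.Helper34.ST.Basic

/-!
# Module EXT: extension of a finite path to a bi-infinite walk
-/

set_option autoImplicit false

namespace Pool.Agent.Helper34.ST

theorem st_EXT : ST_EXT := by
  intro ι r C hs hp n p hpC hpr lo
  classical
  choose! succ hs1 hs2 using hs
  choose! pred hp1 hp2 using hp
  let f : ℕ → ι := fun k => Nat.rec (p n) (fun _ x => succ x) k
  let b : ℕ → ι := fun k => Nat.rec (p 0) (fun _ x => pred x) k
  have f0 : f 0 = p n := rfl
  have fs : ∀ k, f (k + 1) = succ (f k) := fun _ => rfl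
  have b0 : b 0 = p 0 := rfl
  have bs : ∀ k, b (k + 1) = pred (b k) := fun _ => rfl
  have fC : ∀ k, f k ∈ C := by
    intro k
    induction k with
    | zero => exact hpC n le_rfl
    | succ k ih => rw [fs]; exact hs1 _ ih
  have bC : ∀ k, b k ∈ C := by
    intro k
    induction k with
    | zero => exact hpC 0 (Nat.zero_le n)
    | succ k ih => rw [bs]; exact hp1 _ ih
  let u : ℤ → ι := fun t => if t ≤ lo then b (lo - t).toNat else
    if t ≤ lo + n then p (t - lo).toNat else f (t - lo - n).toNat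
  have u1 : ∀ m : ℕ, u (lo - m) = b m := by
    intro m
    have e : (lo - (lo - (m : ℤ))).toNat = m := by omega
    show (if lo - (m : ℤ) ≤ lo then b (lo - (lo - (m : ℤ))).toNat else _) = b m
    rw [if_pos (by omega), e]
  have u2 : ∀ m : ℕ, m ≤ n → u (lo + m) = p m := by
    intro m hm
    rcases Nat.eq_zero_or_pos m with h0 | h0
    · subst h0
      have := u1 0
      rw [Nat.cast_zero, sub_zero] at this
      rw [Nat.cast_zero, add_zero, this]; rfl
    · have e : (lo + (m : ℤ) - lo).toNat = m := by omega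
      show (if lo + (m : ℤ) ≤ lo then _ else if lo + (m : ℤ) ≤ lo + n then p (lo + (m : ℤ) - lo).toNat
        else _) = p m
      rw [if_neg (by omega), if_pos (by omega), e]
  have u3 : ∀ m : ℕ, u (lo + n + m) = f m := by
    intro m
    rcases Nat.eq_zero_or_pos m with h0 | h0
    · subst h0
      have := u2 n le_rfl
      rw [Nat.cast_zero, add_zero, this]; rfl
    · have e : (lo + (n : ℤ) + (m : ℤ) - lo - n).toNat = m := by omega
      show (if lo + (n : ℤ) + (m : ℤ) ≤ lo then _ else if lo + (n : ℤ) + (m : ℤ) ≤ lo + n then _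
        else f (lo + (n : ℤ) + (m : ℤ) - lo - n).toNat) = f m
      rw [if_neg (by omega), if_neg (by omega), e]
  -- every integer is of one of the three types
  have key : ∀ t : ℤ, (∃ m : ℕ, t = lo - ((m + 1 : ℕ) : ℤ)) ∨ (∃ m : ℕ, m < n ∧ t = lo + m) ∨
      (∃ m : ℕ, t = lo + n + m) := by
    intro t
    rcases lt_or_ge t lo with h | h
    · left
      exact ⟨(lo - t - 1).toNat, by omega⟩
    · rcases lt_or_ge t (lo + n) with h' | h'
      · right; left
        exact ⟨(t - lo).toNat, by omega, by omega⟩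
      · right; right
        exact ⟨(t - lo - n).toNat, by omega⟩
  refine ⟨u, ?_, ?_, u2⟩
  · intro t
    rcases key t with ⟨m, rfl⟩ | ⟨m, hm, rfl⟩ | ⟨m, rfl⟩
    · have e : lo - ((m + 1 : ℕ) : ℤ) + 1 = lo - (m : ℤ) := by push_cast; ring
      rw [e, u1, u1, bs]
      exact hp2 _ (bC m)
    · have e : lo + (m : ℤ) + 1 = lo + ((m + 1 : ℕ) : ℤ) := by push_cast; ring
      rw [e, u2 m hm.le, u2 (m + 1) hm]
      exact hpr m hm
    · have e : lo + n + (m : ℤ) + 1 = lo + n + ((m + 1 : ℕ) : ℤ) := by push_cast; ring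
      rw [e, u3, u3, fs]
      exact hs2 _ (fC m)
  · intro t
    rcases key t with ⟨m, rfl⟩ | ⟨m, hm, rfl⟩ | ⟨m, rfl⟩
    · rw [u1]; exact bC (m + 1)
    · rw [u2 m hm.le]; exact hpC m hm.le
    · rw [u3]; exact fC m

end Pool.Agent.Helper34.ST
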